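import Pool.Agent.H.MP_0bef22_co.C

namespace Pool.Agent.Results.MP_0bef22_co.Full

open Finset Filter Topology

/-- `T_n(E)`: ordered solutions `(x, y, z) ∈ [n]^3` of `a x + b y = c z`. -/
def sols (a b c n : ℕ) : Finset (ℕ × ℕ × ℕ) :=
  (Icc 1 n ×ˢ Icc 1 n ×ˢ Icc 1 n).filter fun p => a * p.1 + b * p.2.1 = c * p.2.2

/-- A 3-colouring of `[n]`: a map whose restriction to `[n]` is onto the three colours
(values outside `[n]` are never used). -/
def IsColouring (n : ℕ) (f : ℕ → Fin 3) : Prop := Set.SurjOn f (Set.Icc 1 n) Set.univ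

/-- Proportion of rainbow solutions. -/
noncomputable def rbProp (a b c n : ℕ) (f : ℕ → Fin 3) : ℝ :=
  (((sols a b c n).filter fun p =>
      f p.1 ≠ f p.2.1 ∧ f p.1 ≠ f p.2.2 ∧ f p.2.1 ≠ f p.2.2).card : ℝ) / (sols a b c n).card

/-- Proportion of monochromatic solutions. -/
noncomputable def monoProp (a b c n : ℕ) (f : ℕ → Fin 3) : ℝ :=
  (((sols a b c n).filter fun p => f p.1 = f p.2.1 ∧ f p.2.1 = f p.2.2).card : ℝ)
    / (sols a b c n).card

/-- `rb_[n](E)`: the largest rainbow proportion over all 3-colourings of `[n]`. -/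
noncomputable def rbMax (a b c n : ℕ) : ℝ :=
  sSup {r | ∃ f, IsColouring n f ∧ r = rbProp a b c n f}

/-- `m_[n](E)`: the least monochromatic proportion over all 3-colourings of `[n]`. -/
noncomputable def monoMin (a b c n : ℕ) : ℝ :=
  sInf {r | ∃ f, IsColouring n f ∧ r = monoProp a b c n f}

open Pool.Agent.H.MP_0bef22_co

lemma card_eq (a b c n : ℕ) (f : ℕ → Fin 3) (P : Fin 3 → Fin 3 → Fin 3 → Prop)
    [∀ i j k, Decidable (P i j k)] :
    (((sols a b c n).filter fun p => P (f p.1) (f p.2.1) (f p.2.2)).card : ℝ)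
      = W a b c (fun i j k => if P i j k then 1 else 0) n f 0 := by
  unfold sols W
  rw [filter_filter, ← sum_boole, sum_product]
  refine sum_congr rfl fun x _ => ?_
  rw [sum_product]
  refine sum_congr rfl fun y _ => sum_congr rfl fun z _ => ?_
  have e : a * x + b * y = c * z ↔ (a : ℤ) * x + b * y - c * z = 0 := by
    rw [sub_eq_zero]
    constructor
    · intro h; exact_mod_cast h
    · intro h; exact_mod_cast h
  by_cases h1 : a * x + b * y = c * z
  · have h2 := e.mp h1
    simp only [h1, h2, true_and, if_true]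
  · have h2 : ¬ (a : ℤ) * x + b * y - c * z = 0 := fun h => h1 (e.mpr h)
    simp only [h1, h2, false_and, if_false]

lemma card_sols (a b c n : ℕ) : ((sols a b c n).card : ℝ) = t a b c n := by
  have := card_eq a b c n (fun _ => 0) (fun _ _ _ => True)
  simpa [t] using this

theorem result (a b c : ℕ) (ha : 0 < a) (hb : 0 < b) (hc : 0 < c) :
    (∃ l : ℝ, Tendsto (fun n => rbMax a b c n) atTop (𝓝 l)) ∧
    (∃ l : ℝ, Tendsto (fun n => monoMin a b c n) atTop (𝓝 l)) := by
  constructor
  · obtain ⟨l, hl⟩ := A_conv a b c ha hb hc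
      (fun i j k => if i ≠ j ∧ i ≠ k ∧ j ≠ k then 1 else 0)
      (fun i j k => by split_ifs <;> norm_num) (fun i j k => by split_ifs <;> norm_num)
    refine ⟨l, hl.congr fun n => ?_⟩
    unfold A rbMax rbProp IsColouring
    congr 1
    ext r
    simp only [Set.mem_ofPred_eq]
    refine exists_congr fun f => and_congr_right fun _ => ?_
    rw [card_sols, card_eq a b c n f (fun i j k => i ≠ j ∧ i ≠ k ∧ j ≠ k)]
  · set w : Fin 3 → Fin 3 → Fin 3 → ℝ := fun i j k => if ¬ (i = j ∧ j = k) then 1 else 0 with hw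
    have hw0 : ∀ i j k, 0 ≤ w i j k := fun i j k => by
      simp only [hw]; split_ifs <;> norm_num
    have hw1 : ∀ i j k, w i j k ≤ 1 := fun i j k => by
      simp only [hw]; split_ifs <;> norm_num
    obtain ⟨l, hl⟩ := A_conv a b c ha hb hc w hw0 hw1
    refine ⟨1 - l, (hl.const_sub 1).congr' ?_⟩
    filter_upwards [t_pos a b c ha hb hc, eventually_ge_atTop 3] with n hn hn3
    have hrel : ∀ f, monoProp a b c n f = 1 - W a b c w n f 0 / t a b c n := by
      intro f
      unfold monoProp
      have h1 := card_eq a b c n f (fun i j k => ¬ (i = j ∧ j = k))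
      have h2 := card_filter_add_card_filter_not (s := sols a b c n)
        (fun p => f p.1 = f p.2.1 ∧ f p.2.1 = f p.2.2)
      have h3 : (((sols a b c n).filter fun p => f p.1 = f p.2.1 ∧ f p.2.1 = f p.2.2).card : ℝ)
          + (((sols a b c n).filter fun p => ¬ (f p.1 = f p.2.1 ∧ f p.2.1 = f p.2.2)).card : ℝ)
          = (sols a b c n).card := by exact_mod_cast h2
      rw [h1, card_sols] at h3
      rw [card_sols]
      field_simp
      linarith
    obtain ⟨k, rfl⟩ : ∃ k, n = k + 3 := ⟨n - 3, by omega⟩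
    obtain ⟨g, hg, _⟩ := surj_ext a b c w hw0 k (fun _ => 0)
    have hbdd := A_bdd a b c hc w hw1 (k + 3)
    have hlow : ∀ r ∈ {r | ∃ f, IsColouring (k + 3) f ∧ r = monoProp a b c (k + 3) f},
        1 - A a b c w (k + 3) ≤ r := by
      rintro _ ⟨f, hf, rfl⟩
      have : W a b c w (k + 3) f 0 / t a b c (k + 3) ≤ A a b c w (k + 3) :=
        le_csSup hbdd ⟨f, hf, rfl⟩
      rw [hrel]; linarith
    apply le_antisymm
    · exact le_csInf ⟨_, g, hg, rfl⟩ hlow
    · have : A a b c w (k + 3) ≤ 1 - monoMin a b c (k + 3) := by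
        refine csSup_le ⟨_, g, hg, rfl⟩ ?_
        rintro _ ⟨f, hf, rfl⟩
        have : monoMin a b c (k + 3) ≤ monoProp a b c (k + 3) f :=
          csInf_le ⟨_, hlow⟩ ⟨f, hf, rfl⟩
        rw [hrel] at this
        linarith
      linarith

end Pool.Agent.Results.MP_0bef22_co.Full
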